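import Pool.Agent.H82.NTC.Pot

/-!
Board `ntc`, row PMJ2, helper85: potential of the women for the men of kind `J2`
(the mirror image of PMJ4 of helper62).
-/

set_option autoImplicit false

namespace Pool.NTC

open Pool.NET

theorem pmj2_col (S a c : ℤ) (hS : 0 < S) :
    S * a + 2 * S ≤ S * c ∨ S * c = S * a + S ∨ S * c = S * a ∨ S * c ≤ S * a - S := by
  rcases lt_trichotomy c a with h | h | h
  · right; right; right
    nlinarith [mul_le_mul_of_nonneg_left (show c ≤ a - 1 by omega) hS.le]
  · right; right; left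
    rw [h]
  · rcases Int.lt_or_eq_of_le (show a + 1 ≤ c by omega) with h' | h'
    · left
      nlinarith [mul_le_mul_of_nonneg_left (show a + 2 ≤ c by omega) hS.le]
    · right; left
      rw [← h']; ring

theorem pmj2_thm : PMk Ke.J2 := by
  intro p e g e' g' h u hp hp' _ v w s t hs0 hs1 ht0 ht1 hlt
  obtain ⟨q0, gq, gW, We, eM, MS⟩ := hp
  obtain ⟨_, gq', gW', We', eM', _⟩ := hp'
  obtain ⟨⟨c, d⟩, k⟩ := w
  have hS : 0 < p.S := by omega
  have hcol := pmj2_col p.S v.1 c hS
  have hpr : prM p e g h u (v, Ke.J2) = 2 * (2 * (p.S * v.1) + p.S - p.W + 5 * p.q) + 1 := by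
    simp only [prM, fx, nx2]
    ring
  have hf0 : fx p e g (v, Ke.J2) = p.S * v.1 + p.M + p.W := rfl
  rw [hpr, hf0] at hlt
  generalize hX : p.S * v.1 = X at *
  generalize hY : p.S * c = Y at *
  have key : ∀ f : ℤ, |2 * (2 * X + p.S - p.W + 5 * p.q) + 1 - 4 * (f + s)| <
      |2 * (2 * X + p.S - p.W + 5 * p.q) + 1 - 4 * (X + p.M + p.W + t)| →
      X + p.M + p.W + t < f + s ∧ f + s ≤ X + p.S - p.M - 2 * p.W + 5 * p.q - t := by
    intro f hf
    rcases abs_cases (2 * (2 * X + p.S - p.W + 5 * p.q) + 1 - 4 * (f + s)) with h1 | h1 <;>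
      rcases abs_cases (2 * (2 * X + p.S - p.W + 5 * p.q) + 1 - 4 * (X + p.M + p.W + t)) with
        h2 | h2 <;> omega
  have hk := key _ hlt
  cases k
  · left; simp only [lvM]; omega
  · left; simp only [lvM]; omega
  · exfalso; simp only [fx, hY] at hk; omega
  · exfalso; simp only [fx, hY] at hk; omega
  · left; simp only [lvM]; omega
  · left; simp only [lvM]; omega
  · exfalso; simp only [fx, hY] at hk; omega
  · right
    refine ⟨rfl, ?_⟩
    simp only [sgM]
    simp only [fx, hY] at hk
    omega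
  · exfalso; simp only [fx, hY] at hk; omega
  · exfalso; simp only [fx, hY] at hk; omega

end Pool.NTC
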